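import Pool.Agent.Y143.Prod.Log

/-!
# Kato's log l-adic monodromy-weight conjecture for fibre products of log elliptic curves
-/

open Pool.Agent.Y143 Pool.Agent.Y143.Prod

universe v

/-- Let `H` be a direct summand (with the induced weight filtration) of a sum of Tate twists of groups
`H^i(C, S)`, `i = 0, 1, 2`, where `C` is a projective SNCL curve over the log point of a finite field
and `S` is a tensor product of sheaves `Sym^(k_i) R^1 f_(i*)` for log smooth families `f_i : E_i → C` of
elliptic curves. Then the weight filtration of `H` is the monodromy filtration. -/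
theorem Pool.Agent.Results.MP_f8720a_ag.FibreProducts.result {q : ℕ} (H : Filtered.{v}) (m : ℤ)
    {ι : Type} [Finite ι] (X : ι → Filtered.{v}) (t : ι → ℤ) (hX : ∀ i, IsPiece q (X i) (t i) m)
    (hH : H.IsSummandOf X t) : H.IsMonodromy m :=
  hH.isMonodromy fun i => (hX i).isMonodromy
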