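import Pool.Agent.Y163.LG.Main

/-!
# Kato's log l-adic monodromy-weight conjecture: numerical criteria, index law, zero-one law

`s` is a log point, the objects of the class `T` are the projective SNCL schemes over `s` (for the
product of `X` and `Y` one takes an SNCL log blow-up of the fibre product over `s`, it has the same
Kummer log etale cohomology). For each object `X` the bigraded space `gr m w = gr^P_w H^m(X)` is
the associated graded space of the weight filtrations, `N` is the operator induced by the monodromy
operator. Known properties used: finite dimension, `N` lowers the weight by `2`, Poincaré duality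
(`gr^P_w H^m` is dual to `gr^P_(2 d - w) H^(2 d - m)`), Künneth formula. The hard Lefschetz
theorem, which is not known in log geometry, is not used.
-/

set_option autoImplicit false

open Module Filter Topology

universe u v w

namespace Pool.Agent.Results.MP_f8720a_ag.IndexLaw

open Pool.Agent.Y143 Pool.Agent.Y163.MW Pool.Agent.Y163.LG

lemma b1 : StB1.{w, v} := Pool.Agent.Y954.MW.stB1 Pool.Agent.Y141.MW.stL

section

variable {K : Type w} [Field K]

/-- The moment criteria: for all `m` twice the sum of the `k * rank (N ^ k)` for `N` on
`gr^P H^m(X)` is at most the sum of the `c ^ 2 * dim gr^P_(m + c) H^m(X)`, with equality if and only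
if Kato's conjecture holds for `H^m(X)`; the same for the whole cohomology and for all `m`. -/
def MomentCriterion (T : LTheory.{u, v, w} K) (X : T.Obj) : Prop :=
  (∀ m, (T.H X).rankMoment m ≤ (T.H X).weightMoment m ∧
    ((T.H X).rankMoment m = (T.H X).weightMoment m ↔ (T.H X).KatoDeg m)) ∧
  (T.H X).totRankMoment ≤ (T.H X).totWeightMoment ∧
  ((T.H X).totRankMoment = (T.H X).totWeightMoment ↔ (T.H X).Kato)

/-- The square criterion: `inv` is at least `pred`, and for `X × X` equality holds if and only if
Kato's conjecture holds for `X`. -/
def SquareCriterion (T : LTheory.{u, v, w} K) (X : T.Obj) : Prop :=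
  (T.H X).pred ≤ (T.H X).inv ∧
    ((T.H (T.prod X X)).inv = (T.H (T.prod X X)).pred ↔ (T.H X).Kato)

/-- The limit in the index law. -/
noncomputable def index (T : LTheory.{u, v, w} K) (X : T.Obj) : ℝ :=
  √(((T.H X).totWeightMoment : ℝ) / ((T.H X).totRankMoment : ℝ))

/-- The index law: if `N` is not zero on the graded cohomology of `X`, then `inv / pred` for `X ^ n`
tends to `index`, and `index = 1` if and only if Kato's conjecture holds for `X`. -/
def IndexLimit (T : LTheory.{u, v, w} K) (X : T.Obj) : Prop :=
  (T.H X).N ≠ 0 → 0 < (T.H X).totRankMoment ∧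
    Tendsto (fun n : ℕ => ((T.H (T.pow X n)).inv : ℝ) / ((T.H (T.pow X n)).pred : ℝ)) atTop
      (𝓝 (index T X)) ∧ (index T X = 1 ↔ (T.H X).Kato)

/-- The zero-one law: if Kato's conjecture holds for `X`, then for all `n` the graded pieces of the
monodromy filtration `M n` of the graded cohomology of `X ^ n` have the expected weights; otherwise
the proportion of the part which has the expected weight tends to `0`. -/
def ZeroOneLaw (T : LTheory.{u, v, w} K) (X : T.Obj) : Prop :=
  ∀ M : ∀ n, ℤ → Submodule K (T.H (T.pow X n)).V,
    (∀ n, IsMonodromyFiltrationOn ⊤ (T.H (T.pow X n)).N (M n)) →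
    ((T.H X).Kato → ∀ n, (T.H (T.pow X n)).right (M n) = finrank K (T.H (T.pow X n)).V) ∧
    (¬ (T.H X).Kato → Tendsto (fun n : ℕ =>
      ((T.H (T.pow X n)).right (M n) : ℝ) / (finrank K (T.H (T.pow X n)).V : ℝ)) atTop (𝓝 0))

end

/-- **Numerical criteria for Kato's conjecture.** Let `X` be a projective SNCL scheme over a log
point, `gr^P H^m(X)` the graded spaces of the weight filtrations of its cohomology and `N` the
operator induced by the monodromy operator.

(1) For all `m` twice the sum of the numbers `k * rank (N ^ k)` for `N` on `gr^P H^m(X)` is at most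
the sum of the `c ^ 2 * dim gr^P_(m + c) H^m(X)`, with equality if and only if `N ^ e` is an
isomorphism from `gr^P_(m + e) H^m(X)` to `gr^P_(m - e) H^m(X)` for all `e`; the same for the whole
cohomology.

(2) The dimension `inv` of the kernel of `N` is at least the sum `pred` of the dimensions of the
`gr^P_m H^m(X)` and of the `gr^P_(m + 1) H^m(X)`; for `X × X` equality holds if and only if Kato's
conjecture holds for `X`.

(3) If `N` is not zero, then `inv / pred` for `X ^ n` tends to the square root of the quotient of
the two numbers compared in (1), for the whole cohomology; this limit is `1` if and only if Kato's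
conjecture holds for `X`.

(4) If Kato's conjecture holds for `X`, the graded pieces `M_s / M_(s - 1)` of the monodromy
filtration of the cohomology of `X ^ n` have weight-degree `s` for all `n`. Otherwise the
proportion of the part with this property tends to `0`. -/
theorem result {K : Type w} [Field K] [CharZero K] {T : LTheory.{u, v, w} K} (hT : T.IsLog)
    (X : T.Obj) :
    MomentCriterion T X ∧ SquareCriterion T X ∧ IndexLimit T X ∧ ZeroOneLaw T X := by
  have htot := LCoh.moment_tot (hT.coh X)
  refine ⟨⟨fun m => LCoh.moment_deg (hT.coh X) m, htot⟩,
    ⟨LCoh.pred_le_inv b1 (hT.coh X), square_iff b1 hT X⟩, fun hN => ?_,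
    fun M hM => zero_one hT X M hM⟩
  have hpos := LCoh.totRank_pos (hT.coh X) hN
  refine ⟨hpos, index_law b1 hT X hN, ?_⟩
  unfold index
  rw [← htot.2]
  have h1 : (0 : ℝ) < ((T.H X).totRankMoment : ℝ) := by exact_mod_cast hpos
  rw [Real.sqrt_eq_one, div_eq_one_iff_eq h1.ne']
  constructor
  · intro h
    exact_mod_cast h.symm
  · intro h
    rw [h]

end Pool.Agent.Results.MP_f8720a_ag.IndexLaw
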