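import Pool.Agent.Y143.Middle

/-!
# The log l-adic monodromy-weight conjecture for large exponents and in the middle degree
-/

open Pool.Agent.Y143

universe u v

/-- Let `X` be a projective SNCL scheme of dimension `n` over the log point of a finite field. The map
`N ^ e` from the graded piece of weight `m + e` of `H^m` to the graded piece of weight `m - e` is
an isomorphism for all `e ≥ 1` with `e ≥ min (m, 2 n - m)` and, in the middle degree `m = n`, for
all `e ≥ 1` with `e ≥ n - 1`. In the middle degree `m = n` it is also an isomorphism for `e = n - 2`, if the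
Tate conjecture for divisors holds for the stratum `Y^(n-2)` (of dimension three) and all the
eigenvalues of the Frobenius on the image of `H^2(Y^(n-2))` in `H^2(Y^(n-1))` are Tate numbers. -/
theorem Pool.Agent.Results.MP_f8720a_ag.LargeExponents.result
    {Ω : Type u} [Field Ω] [CharZero Ω] [IsAlgClosed Ω] {Γ : Type} {n q : ℕ}
    (X : SemistableModel.{u, v} Ω Γ n q) (A : DivisorClasses X.toSpecialFibre) (m e : ℕ)
    (he : 1 ≤ e)
    (h : min (m : ℤ) (2 * n - m) ≤ e ∨ (m = n ∧ n ≤ e + 1) ∨
      (m = n ∧ n ≤ e + 2 ∧ A.TateConj (n - 3) ∧ X.TateImage (n - 3))) :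
    IsGradedIso (X.W m) (X.N m) m e :=
  X.isGradedIso A m e he h
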