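import Pool.Agent.Y129.WM.GMain

/-!
# Kato's conjecture for all exponents follows from one exponent for every variety

Let `s` be a log point and consider all projective SNCL schemes `X` over `s` (Kato's conjecture for all
families of log points follows from its truth for points). The graded modules
`H X m = gr^P H^m(X)`, with `gr w = gr^P_w H^m(X)` and the monodromy operator `N` of degree `-2`, have
the following formal properties, which are the fields of the structures `GTheory` and
`GCohomology` (`K = ℚ_ℓ`, Tate twists are not written):

* exterior products `H^m(X) ⊗ H^n(Y) → H^{m+n}(X × Y)` which respect the weights and for which `N`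
  is a derivation (for `X × Y` one takes a log blow-up of the product over `s` which is an SNCL
  scheme; it has the same cohomology);
* Poincaré duality, and the action of the classes on `X × Y` on the cohomology of `X` as
  correspondences; both respect the weights up to the twist by `dim X`, and `N` is a derivation;
* a product `x × y` acts by `x' ↦ ⟨x, x'⟩ y` (formula of Künneth);
* the cycle `E` of `n ≥ 2` projective lines (the reduction of a Tate curve) has classes
  `1 ∈ gr_0 H^0(E)`, `e0 ∈ gr_0 H^1(E)`, `e1 ∈ gr_2 H^1(E)` with `N(e1) = e0`.

The conjecture of Kato (`WeightMonodromy`) says that `N ^ e : gr_{m+e} H^m(X) → gr_{m-e} H^m(X)`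
is an isomorphism for all `X`, `m` and `e`.

Theorem. Let `f` be any function with positive values such that `f(n) / n → 0`, for instance a
constant. Kato's conjecture (for all `X` over `s`) is equivalent to each of the following statements.

* For every `X` there is ONE exponent `e`, `1 ≤ e ≤ f(dim X)`, such that for all `m` the map
  `N ^ e : gr_{m+e} H^m(X) → gr_{m-e} H^m(X)` is injective.
* For every `X` there is one exponent `e`, `1 ≤ e ≤ f(dim X)`, such that these maps are surjective.
* For all `X` and `m` the kernel of `N` on `gr^P H^m(X)` has weights at most `m`.

In particular the case `e = 1` of the conjecture for all `X` (or the case `e = 2`, or the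
injectivity of `N ^ e` for one `e ≤ ε dim X`, for every `ε > 0` and all `X` of sufficiently large
dimension) implies the whole conjecture. (What is known in all dimensions is in the opposite range,
it concerns exponents `e` close to `dim X`.)

Proof. Let `x ≠ 0` be in `gr_{m+k} H^m(X)`, `N ^ k x = 0`, and let `N ^ L x ≠ 0 = N ^ {L+1} x`,
`L < k`. Then `z = ∑_i (-1)^i N^i x × N^{L-i} x` is in the kernel of `N` on `H^{2m}(X × X)`, it
is not zero (contract it with a class `x'` of weight `2 dim X - m - k`) and of weight
`2 (m + k - L) > 2 m` (this is an argument of Deligne in Weil II). Products of such classes with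
themselves show that there are `Z` of dimension `2 ^ k n` with a nonzero class `v` in the kernel of
`N` on `H^μ(Z)` of weight `μ + D`, `D = 2 ^ k δ`, with fixed `n` and `δ ≥ 1`. On `Y = E ^ D × Z` the
products of `v` with `s` classes `e0` and `D - s` classes `1` are in the kernel of `N` on
`H^{μ+s}(Y)` and have the weight `(μ + s) + (D - s)`. So `N ^ e` is not injective on
`gr_{ν+e} H^ν(Y)` for all `e` with `1 ≤ e ≤ D`, for some `ν` depending on `e`; and
`f(dim Y) ≤ D` if `k` is large.
-/

namespace Pool.Agent.Results.MP_f8720a_ag.OneExponent

open Pool.Agent.Y129.WM

/-- The weight-monodromy conjecture for all `X` is equivalent to the injectivity (or the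
surjectivity) for one exponent between `1` and `f(dim X)` for every `X`, where `f(n) / n` tends to
zero, and to the bound `m` for the weights of the kernel of `N` on `H^m(X)` for all `X`. -/
theorem result {K : Type} [Field K] (C : GCohomology K) {f : ℕ → ℕ} (hf : Sublinear f) :
    (C.WeightMonodromy ↔ C.OneInjective f) ∧ (C.WeightMonodromy ↔ C.OneSurjective f) ∧
      (C.WeightMonodromy ↔ C.KernelWeights) :=
  C.main hf

end Pool.Agent.Results.MP_f8720a_ag.OneExponent
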